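import Pool.Agent.TH812.GV.Det

/-!
The exchange of rows at a place of a function field, when all rows have their poles in one common
direction.
-/

set_option autoImplicit false

open FF Pool.Agent.W603.LV

namespace Pool.Agent.TH812.GV2

open Pool.Agent.TH812.GV

section exch

variable {k K : Type} [Field k] [Field K] [Algebra k K] {N : ℕ}

/-- The exchange of rows: the linear form `φ a` has order at least `g a - s - μ t` on the row `t`,
and the loss `μ t` occurs at most once. -/
theorem exch2 (P : Place k K) {ι : Type} (φ : ι → (Fin N → K) →ₗ[K] K) (y : ι → Fin N → K)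
    (g : ι → ℤ) {s : ℤ} (cb : Fin N → ℤ) (T : Finset (Fin N)) (S : Finset ι) :
    ∀ (b : Matrix (Fin N) (Fin N) K) (μ : Fin N → ℤ), (∀ t, 0 ≤ μ t) → b.det ≠ 0 →
      (∀ t ∈ T, ∀ l, Ge P (-s - cb l) (b t l)) →
      (∀ t ∉ T, ∀ l, Ge P (-cb l) (b t l)) → (∀ a ∈ S, ∀ l, Ge P (-s - cb l) (y a l)) →
      (∀ a ∈ S, ∃ c : Fin N → K, (∀ t, c t ≠ 0 → t ∈ T) ∧ y a = ∑ t, c t • b t) →
      (∀ a ∈ S, ∀ t ∈ T, Ge P (g a - s - μ t) (φ a (b t))) →
      (∀ a ∈ S, ∀ a' ∈ S, a ≠ a' → Ge P (g a - s) (φ a (y a'))) →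
      (∀ a ∈ S, Ge P (g a - s) (φ a (y a) + 1)) →
      ∑ a ∈ S, (g a - s) - ∑ t ∈ T, μ t - T.card * s - ∑ l, cb l ≤ P.ord b.det := by
  classical
  induction S using Finset.induction_on with
  | empty =>
    intro b μ hμ hb h1 h2 _ _ _ _ _
    rw [Finset.sum_empty, zero_sub]
    have hμs : 0 ≤ ∑ t ∈ T, μ t := Finset.sum_nonneg fun t _ => hμ t
    refine (ge_det P b _ (fun i j => (if i ∈ T then -s else 0) - cb j) (fun i j => ?_)
      (fun σ => ?_)).resolve_left hb
    · by_cases hi : i ∈ T
      · simp only [if_pos hi]; exact h1 i hi j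
      · simp only [if_neg hi, zero_sub]; exact h2 i hi j
    · rw [Finset.sum_sub_distrib, Equiv.sum_comp σ (fun i => if i ∈ T then -s else 0)]
      have h3 : ∑ i, (if i ∈ T then -s else 0) = -(T.card * s) := by simp
      rw [h3]
      linarith
  | insert a S ha ih =>
    intro b μ hμ hb h1 h2 h3 h4 h5 h6 h7
    rw [Finset.sum_insert ha]
    have hS : ∀ a' ∈ S, a' ∈ insert a S := fun a' h => Finset.mem_insert_of_mem h
    have haS : a ∈ insert a S := Finset.mem_insert_self _ _
    by_cases hg : g a - s ≤ 0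
    · have := ih b μ hμ hb h1 h2 (fun a' h => h3 a' (hS a' h)) (fun a' h => h4 a' (hS a' h))
        (fun a' h => h5 a' (hS a' h)) (fun a' h a'' h' => h6 a' (hS a' h) a'' (hS a'' h'))
        (fun a' h => h7 a' (hS a' h))
      linarith
    · push Not at hg
      obtain ⟨c, hcT, hc⟩ := h4 a haS
      obtain ⟨t0, ht0⟩ : ∃ t0, ¬ Ge P 1 (c t0 * φ a (b t0)) := by
        by_contra hcon
        push Not at hcon
        have e1 : φ a (y a) = ∑ t, c t * φ a (b t) := by
          rw [hc, map_sum]
          exact Finset.sum_congr rfl fun t _ => by rw [map_smul, smul_eq_mul]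
        have e2 : Ge P 1 (φ a (y a)) := by
          rw [e1]
          exact Ge.sum _ _ fun t _ => hcon t
        have e3 := ((h7 a haS).mono (by omega : (1 : ℤ) ≤ g a - s)).sub e2
        rw [add_sub_cancel_left] at e3
        rcases e3 with e3 | e3
        · exact one_ne_zero e3
        · rw [P.ord_one] at e3
          omega
      have hne : c t0 * φ a (b t0) ≠ 0 := fun h => ht0 (Or.inl h)
      have hc0 : c t0 ≠ 0 := left_ne_zero_of_mul hne
      have hφ0 : φ a (b t0) ≠ 0 := right_ne_zero_of_mul hne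
      have ht0T : t0 ∈ T := hcT t0 hc0
      have hord : P.ord (c t0 * φ a (b t0)) < 1 := by
        by_contra h
        exact ht0 (Or.inr (not_lt.1 h))
      rw [P.ord_mul hc0 hφ0] at hord
      have h8 := (h5 a haS t0 ht0T).resolve_left hφ0
      obtain ⟨b1, hb1⟩ : ∃ b1 : Matrix (Fin N) (Fin N) K, b1 = b.updateRow t0 (y a) := ⟨_, rfl⟩
      obtain ⟨μ1, hμ1⟩ : ∃ μ1 : Fin N → ℤ, μ1 = Function.update μ t0 0 := ⟨_, rfl⟩
      have hμ1t : μ1 t0 = 0 := by rw [hμ1]; exact Function.update_self _ _ _
      have hμ1n : ∀ t, t ≠ t0 → μ1 t = μ t := fun t ht => by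
        rw [hμ1]; exact Function.update_of_ne ht _ _
      have hμsum : ∑ t ∈ T, μ1 t = ∑ t ∈ T, μ t - μ t0 := by
        rw [← Finset.add_sum_erase _ _ ht0T, ← Finset.add_sum_erase _ μ ht0T, hμ1t]
        have : ∑ x ∈ T.erase t0, μ1 x = ∑ x ∈ T.erase t0, μ x :=
          Finset.sum_congr rfl fun t ht => hμ1n t (Finset.ne_of_mem_erase ht)
        rw [this]; ring
      have hdet : b1.det = c t0 * b.det := by
        rw [hb1, hc]
        exact det_update b t0 c
      have hrow0 : b1 t0 = y a := by
        rw [hb1]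
        exact Matrix.updateRow_self
      have hrow : ∀ t, t ≠ t0 → b1 t = b t := by
        intro t ht
        rw [hb1]
        exact Matrix.updateRow_ne ht
      have hb10 : b1.det ≠ 0 := by
        rw [hdet]; exact mul_ne_zero hc0 hb
      have h9 := ih b1 μ1 (fun t => by
          by_cases h : t = t0
          · rw [h, hμ1t]
          · rw [hμ1n t h]; exact hμ t) hb10 (fun t ht l => by
          by_cases h : t = t0
          · rw [h, hrow0]; exact h3 a haS l
          · rw [hrow t h]; exact h1 t ht l)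
        (fun t ht l => by
          have h : t ≠ t0 := by
            rintro rfl
            exact ht ht0T
          rw [hrow t h]; exact h2 t ht l)
        (fun a' h => h3 a' (hS a' h))
        (fun a' h => by
          obtain ⟨c', hc'T, hc'⟩ := h4 a' (hS a' h)
          refine ⟨fun t => if t = t0 then c' t0 / c t0 else c' t - c' t0 / c t0 * c t,
            fun t ht => ?_, ?_⟩
          · by_contra hcon
            have e0 : t ≠ t0 := by
              rintro rfl
              exact hcon ht0T
            apply ht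
            have e1 : c' t = 0 := by
              by_contra h; exact hcon (hc'T t h)
            have e2 : c t = 0 := by
              by_contra h; exact hcon (hcT t h)
            simp only [if_neg e0, e1, e2, mul_zero, sub_zero]
          · have e1 : y a - ∑ t ∈ Finset.univ.erase t0, c t • b t = c t0 • b t0 := by
              rw [hc, ← Finset.add_sum_erase _ _ (Finset.mem_univ t0), add_sub_cancel_right]
            have e2 : b t0 = (c t0)⁻¹ • (y a - ∑ t ∈ Finset.univ.erase t0, c t • b t) := by
              rw [e1, smul_smul, inv_mul_cancel₀ hc0, one_smul]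
            rw [← Finset.add_sum_erase _ _ (Finset.mem_univ t0)]
            simp only [if_true, hrow0]
            have e3 : ∑ x ∈ Finset.univ.erase t0, (if x = t0 then c' t0 / c t0 else
                c' x - c' t0 / c t0 * c x) • b1 x = ∑ x ∈ Finset.univ.erase t0, c' x • b x -
                (c' t0 / c t0) • ∑ x ∈ Finset.univ.erase t0, c x • b x := by
              rw [Finset.smul_sum, ← Finset.sum_sub_distrib]
              refine Finset.sum_congr rfl fun x hx => ?_
              have hx0 : x ≠ t0 := Finset.ne_of_mem_erase hx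
              rw [if_neg hx0, hrow x hx0, sub_smul, mul_smul]
            rw [e3, hc', ← Finset.add_sum_erase _ _ (Finset.mem_univ t0)]
            conv_lhs => rw [e2]
            rw [smul_smul, smul_sub, ← div_eq_mul_inv]
            abel)
        (fun a' h t ht => by
          by_cases h' : t = t0
          · rw [h', hrow0, hμ1t, sub_zero]
            exact h6 a' (hS a' h) a haS (by rintro rfl; exact ha h)
          · rw [hrow t h', hμ1n t h']; exact h5 a' (hS a' h) t ht)
        (fun a' h a'' h' => h6 a' (hS a' h) a'' (hS a'' h')) (fun a' h => h7 a' (hS a' h))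
      rw [hdet, P.ord_mul hc0 hb, hμsum] at h9
      linarith

open Classical in
/-- The exchange of rows whose poles have a common direction `u`. -/
theorem exch_dir (P : Place k K) {ι : Type} (φ : ι → (Fin N → K) →ₗ[K] K)
    (y ry : ι → Fin N → K) (cy w : ι → K) (g : ι → ℤ) {s e : ℤ} (hs : 0 ≤ s) (he : 0 ≤ e)
    (u : Fin N → K) (hu : ∀ l, Ge P 0 (u l)) (T : Finset (Fin N)) (S : Finset ι)
    (b : Matrix (Fin N) (Fin N) K) (hb : b.det ≠ 0) (r : Fin N → Fin N → K) (c : Fin N → K)
    (hbr : ∀ t, b t = r t + c t • u) (hc : ∀ t, Ge P (-e) (c t))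
    (hrT : ∀ t ∈ T, ∀ l, Ge P (-s) (r t l)) (hrn : ∀ t ∉ T, ∀ l, Ge P 0 (r t l))
    (hy : ∀ a ∈ S, y a = ry a + cy a • u) (hry : ∀ a ∈ S, ∀ l, Ge P (-s) (ry a l))
    (hcy : ∀ a ∈ S, Ge P (-e) (cy a))
    (hw : ∀ a ∈ S, Ge P (g a - 1) (w a))
    (hyT : ∀ a ∈ S, ∃ c : Fin N → K, (∀ t, c t ≠ 0 → t ∈ T) ∧ y a = ∑ t, c t • b t)
    (h5 : ∀ a ∈ S, ∀ t ∈ T, Ge P (g a - s) (φ a (b t) - c t * w a))
    (h6 : ∀ a ∈ S, ∀ a' ∈ S, a ≠ a' → Ge P (g a - s) (φ a (y a') - cy a' * w a))
    (h7 : ∀ a ∈ S, Ge P (g a - s) (φ a (y a) + 1 - cy a * w a)) :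
    ∑ a ∈ S, (g a - s) - (if S = ∅ then 0 else 1) - (T.card + 1) * s - e ≤ P.ord b.det := by
  classical
  -- the augmented matrix
  obtain ⟨A, hA0, hAs⟩ : ∃ A : Matrix (Fin (N + 1)) (Fin (N + 1)) K,
      A 0 = Fin.cons 1 (-u) ∧ ∀ t : Fin N, A t.succ = Fin.cons (c t) (r t) :=
    ⟨Matrix.of (Fin.cons (Fin.cons 1 (-u) : Fin (N + 1) → K)
      (fun t => (Fin.cons (c t) (r t) : Fin (N + 1) → K))), rfl, fun t => rfl⟩
  obtain ⟨B, hB0, hBs⟩ : ∃ B : Matrix (Fin (N + 1)) (Fin (N + 1)) K,
      B 0 = Fin.cons 1 (-u) ∧ ∀ t : Fin N, B t.succ = Fin.cons 0 (b t) :=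
    ⟨Matrix.of (Fin.cons (Fin.cons 1 (-u) : Fin (N + 1) → K)
      (fun t => (Fin.cons 0 (b t) : Fin (N + 1) → K))), rfl, fun t => rfl⟩
  have hAB : A.det = B.det := by
    refine Matrix.det_eq_of_forall_row_eq_smul_add_const (Fin.cons 0 c) 0 rfl ?_
    intro i j
    refine Fin.cases ?_ (fun t => ?_) i
    · rw [hA0, hB0]; simp
    · rw [hAs, hBs, hB0]
      refine Fin.cases ?_ (fun l => ?_) j
      · simp
      · simp only [Fin.cons_succ, Pi.neg_apply]
        rw [hbr]
        simp
  have hB : B.det = b.det := by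
    rw [Matrix.det_succ_column_zero, Fin.sum_univ_succ, Finset.sum_eq_zero]
    · have h1 : B.submatrix (Fin.succAbove 0) Fin.succ = b := by
        ext t l
        rw [Matrix.submatrix_apply, Fin.zero_succAbove, hBs, Fin.cons_succ]
      rw [h1, hB0]
      simp
    · intro t _
      rw [hBs]
      simp
  have hAdet : A.det = b.det := hAB.trans hB
  -- the linear forms
  obtain ⟨Φ, hΦ⟩ : ∃ Φ : ι → (Fin (N + 1) → K) →ₗ[K] K, ∀ a z,
      Φ a z = φ a (fun l => z l.succ + z 0 * u l) - z 0 * w a := by
    refine ⟨fun a =>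
      { toFun := fun z => φ a (fun l => z l.succ + z 0 * u l) - z 0 * w a
        map_add' := fun z z' => ?_
        map_smul' := fun q z => ?_ }, fun a z => rfl⟩
    · have h1 : (fun l => (z + z') (Fin.succ l) + (z + z') 0 * u l) =
          (fun l : Fin N => z l.succ + z 0 * u l) + fun l => z' l.succ + z' 0 * u l := by
        funext l
        simp only [Pi.add_apply]
        ring
      rw [h1, map_add]
      simp only [Pi.add_apply]
      ring
    · have h1 : (fun l => (q • z) (Fin.succ l) + (q • z) 0 * u l) =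
          q • (fun l : Fin N => z l.succ + z 0 * u l) := by
        funext l
        simp only [Pi.smul_apply, smul_eq_mul]
        ring
      rw [h1, map_smul]
      simp only [Pi.smul_apply, smul_eq_mul, RingHom.id_apply]
      ring
  have hΦr : ∀ a t, Φ a (A (Fin.succ t)) = φ a (b t) - c t * w a := by
    intro a t
    rw [hΦ, hAs]
    have h1 : (fun l : Fin N => (Fin.cons (c t) (r t) : Fin (N + 1) → K) l.succ +
        (Fin.cons (c t) (r t) : Fin (N + 1) → K) 0 * u l) = b t := by
      funext l
      rw [hbr]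
      simp
    rw [h1]
    simp
  have hΦ0 : ∀ a, Φ a (A 0) = - w a := by
    intro a
    rw [hΦ, hA0]
    have h1 : (fun l : Fin N => (Fin.cons 1 (-u) : Fin (N + 1) → K) l.succ +
        (Fin.cons 1 (-u) : Fin (N + 1) → K) 0 * u l) = 0 := by
      funext l
      simp
    rw [h1, map_zero]
    simp
  obtain ⟨Y, hY⟩ : ∃ Y : ι → Fin (N + 1) → K, ∀ a, Y a = Fin.cons (cy a) (ry a) :=
    ⟨_, fun _ => rfl⟩
  have hΦy : ∀ a, ∀ a' ∈ S, Φ a (Y a') = φ a (y a') - cy a' * w a := by
    intro a a' ha'
    rw [hΦ, hY]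
    have h1 : (fun l : Fin N => (Fin.cons (cy a') (ry a') : Fin (N + 1) → K) l.succ +
        (Fin.cons (cy a') (ry a') : Fin (N + 1) → K) 0 * u l) = y a' := by
      funext l
      rw [hy a' ha']
      simp
    rw [h1]
    simp
  obtain ⟨T', hT'⟩ : ∃ T' : Finset (Fin (N + 1)), T' = insert 0 (T.image Fin.succ) := ⟨_, rfl⟩
  have hT0 : (0 : Fin (N + 1)) ∉ T.image Fin.succ := by
    rw [Finset.mem_image]
    rintro ⟨t, -, ht⟩
    exact Fin.succ_ne_zero t ht
  have hT'card : (T'.card : ℤ) = T.card + 1 := by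
    rw [hT', Finset.card_insert_of_notMem hT0,
      Finset.card_image_of_injective _ (Fin.succ_injective N)]
    push_cast
    ring
  have hT's : ∀ t : Fin N, t.succ ∈ T' ↔ t ∈ T := by
    intro t
    rw [hT', Finset.mem_insert, Finset.mem_image]
    constructor
    · rintro (h | ⟨t', ht', h⟩)
      · exact absurd h (Fin.succ_ne_zero t)
      · rwa [← Fin.succ_injective N h]
    · intro h
      exact Or.inr ⟨t, h, rfl⟩
  have hT'0 : (0 : Fin (N + 1)) ∈ T' := by rw [hT']; exact Finset.mem_insert_self _ _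
  obtain ⟨μ, hμ⟩ : ∃ μ : Fin (N + 1) → ℤ, μ = Fin.cons (if S = ∅ then 0 else 1) (fun _ => 0) :=
    ⟨_, rfl⟩
  have hμ0 : μ 0 = if S = ∅ then 0 else 1 := by rw [hμ]; rfl
  have hμs : ∀ t : Fin N, μ t.succ = 0 := fun t => by rw [hμ]; rfl
  obtain ⟨cb, hcb⟩ : ∃ cb : Fin (N + 1) → ℤ, cb = Fin.cons e (fun _ => 0) := ⟨_, rfl⟩
  have hcb0 : cb 0 = e := by rw [hcb]; rfl
  have hcbs : ∀ t : Fin N, cb t.succ = 0 := fun t => by rw [hcb]; rfl
  have key := exch2 P Φ Y g (s := s) cb T' S A μ (fun t => by
      refine Fin.cases ?_ (fun t => ?_) t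
      · rw [hμ0]; split_ifs <;> norm_num
      · rw [hμs]) (by rw [hAdet]; exact hb)
    (fun t ht l => by
      revert ht
      refine Fin.cases ?_ (fun t => ?_) t
      · intro _
        rw [hA0]
        refine Fin.cases ?_ (fun l => ?_) l
        · rw [hcb0, Fin.cons_zero]
          exact Ge.one.mono (by omega)
        · rw [hcbs, Fin.cons_succ]
          exact (hu l).neg.mono (by omega)
      · intro ht
        rw [hT's] at ht
        rw [hAs]
        refine Fin.cases ?_ (fun l => ?_) l
        · rw [hcb0, Fin.cons_zero]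
          exact (hc t).mono (by omega)
        · rw [hcbs, Fin.cons_succ]
          exact (hrT t ht l).mono (by omega))
    (fun t ht l => by
      revert ht
      refine Fin.cases ?_ (fun t => ?_) t
      · intro ht
        exact absurd hT'0 ht
      · intro ht
        rw [hT's] at ht
        rw [hAs]
        refine Fin.cases ?_ (fun l => ?_) l
        · rw [hcb0, Fin.cons_zero]
          exact hc t
        · rw [hcbs, Fin.cons_succ]
          exact (hrn t ht l).mono (by omega))
    (fun a ha l => by
      rw [hY]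
      refine Fin.cases ?_ (fun l => ?_) l
      · rw [hcb0, Fin.cons_zero]
        exact (hcy a ha).mono (by omega)
      · rw [hcbs, Fin.cons_succ]
        exact (hry a ha l).mono (by omega))
    (fun a ha => by
      obtain ⟨q, hqT, hq⟩ := hyT a ha
      refine ⟨Fin.cons (cy a - ∑ t, q t * c t) q, fun t => ?_, ?_⟩
      · refine Fin.cases ?_ (fun t => ?_) t
        · intro _; exact hT'0
        · intro ht
          rw [hT's]
          exact hqT t ht
      · rw [hY, Fin.sum_univ_succ]
        simp only [Fin.cons_zero, Fin.cons_succ, hA0, hAs]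
        funext l
        refine Fin.cases ?_ (fun l => ?_) l
        · simp
        · simp only [Pi.add_apply, Pi.smul_apply, Fin.cons_succ, Pi.neg_apply, smul_eq_mul,
            Finset.sum_apply]
          have e1 := congrFun (hy a ha) l
          have e2 := congrFun hq l
          simp only [Pi.add_apply, Pi.smul_apply, smul_eq_mul, Finset.sum_apply] at e1 e2
          have e3 : ∑ t, q t * b t l = ∑ t, q t * r t l + (∑ t, q t * c t) * u l := by
            rw [Finset.sum_mul, ← Finset.sum_add_distrib]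
            refine Finset.sum_congr rfl fun t _ => ?_
            have e4 := congrFun (hbr t) l
            simp only [Pi.add_apply, Pi.smul_apply, smul_eq_mul] at e4
            rw [e4]; ring
          rw [e3, e1] at e2
          linear_combination e2)
    (fun a ha t => by
      refine Fin.cases ?_ (fun t => ?_) t
      · intro _
        rw [hΦ0, hμ0, if_neg (Finset.ne_empty_of_mem ha)]
        exact (hw a ha).neg.mono (by omega)
      · intro ht
        rw [hT's] at ht
        rw [hΦr, hμs, sub_zero]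
        exact h5 a ha t ht)
    (fun a ha a' ha' haa => by
      rw [hΦy a a' ha']
      exact h6 a ha a' ha' haa)
    (fun a ha => by
      rw [hΦy a a ha]
      have : φ a (y a) - cy a * w a + 1 = φ a (y a) + 1 - cy a * w a := by ring
      rw [this]
      exact h7 a ha)
  have hsum1 : ∑ t ∈ T', μ t = if S = ∅ then 0 else 1 := by
    rw [hT', Finset.sum_insert hT0, hμ0, Finset.sum_image fun _ _ _ _ h => Fin.succ_injective N h,
      Finset.sum_eq_zero fun t _ => hμs t, add_zero]
  have hsum2 : ∑ l, cb l = e := by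
    rw [Fin.sum_univ_succ, hcb0, Finset.sum_eq_zero fun t _ => hcbs t, add_zero]
  rw [hsum1, hsum2, hT'card, hAdet] at key
  exact key

end exch

end Pool.Agent.TH812.GV2
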