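import Pool.Agent.TH812.GV.Ext

/-!
The loss of derivations in finite extensions of a function field: the direction of the curve and
the other directions.
-/

set_option autoImplicit false

open FF Pool.Agent.W603.LV Pool.Agent.W603.PV Pool.Agent.TH145.GH

namespace Pool.Agent.TH812.GV2

open Pool.Agent.TH812.GV

section loc

variable {k K : Type} [Field k] [Field K] [Algebra k K] [IsAlgClosed k] [CharZero k] [IsFF k K]

/-- The derivation with respect to the uniformizer. -/
def Loc (P : Place k K) (δ : Derivation ℤ K K) : Prop :=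
  δ (unif P) = 1 ∧ (∀ c : k, δ (algebraMap k K c) = 0) ∧ ∀ f, Ge P 0 f → Ge P 0 (δ f)

theorem exists_locd (P : Place k K) : ∃ δ : Derivation ℤ K K, Loc P δ := by
  obtain ⟨d, hd0⟩ := exists_der (k := k) (K := K)
  have h0 := der_pi_ne_zero hd0 P (ord_unif P)
  obtain ⟨δ, hδ⟩ : ∃ δ : Derivation k K K, δ = (d (unif P))⁻¹ • d := ⟨_, rfl⟩
  have hδπ : δ (unif P) = 1 := by
    rw [hδ]; simp [h0]
  have hc : ∀ c : k, (δ.restrictScalars ℤ) (algebraMap k K c) = 0 := fun c =>
    δ.map_algebraMap c
  refine ⟨δ.restrictScalars ℤ, hδπ, hc, fun f hf => ?_⟩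
  refine reg_of_unif P (ord_unif P) (fun c => ⟨0, by rw [hc, map_zero]⟩) le_rfl ?_ hf
  change Ge P 0 (δ (unif P))
  rw [hδπ]
  exact Ge.one

/-- A derivation that preserves the constants and kills the uniformizer preserves the order. -/
theorem ge_of_kill (P : Place k K) {D : Derivation ℤ K K} (hS : Sem k D) (h0 : D (unif P) = 0)
    {g : ℤ} {f : K} (hf : Ge P g f) : Ge P g (D f) := by
  have hπ := ord_unif P
  have hπ0 : unif P ≠ 0 := by
    intro h
    rw [h, P.ord_zero] at hπ; omega
  obtain ⟨u, hu⟩ : ∃ u, u = f * unif P ^ (-g) := ⟨_, rfl⟩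
  have hz : ∀ m : ℤ, Ge P m (unif P ^ m) := fun m => by
    right; rw [P.ord_zpow, hπ, mul_one]
  have hu0 : Ge P 0 u := by
    rw [hu]
    exact (hf.mul (hz (-g))).mono (by omega)
  have hf' : f = u * unif P ^ g := by
    rw [hu, mul_assoc, ← zpow_add₀ hπ0]; simp
  have e : D f = unif P ^ g * D u := by
    rw [hf', D.leibniz, Derivation.leibniz_zpow, h0]
    simp only [smul_eq_mul, zsmul_eq_mul, mul_zero, zero_add]
  rw [e]
  have h1 : Ge P 0 (D u) := reg_of_unif P hπ hS le_rfl (Or.inl h0) hu0
  exact ((hz g).mul h1).mono (by omega)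

/-- A derivation that preserves the constants, modulo the direction of the curve. -/
theorem sem_loc {P : Place k K} {δ : Derivation ℤ K K} (hδ : Loc P δ) {D : Derivation ℤ K K}
    (hS : Sem k D) {g : ℤ} {f : K} (hf : Ge P g f) : Ge P g (D f - D (unif P) * δ f) := by
  obtain ⟨D1, hD1⟩ : ∃ D1 : Derivation ℤ K K, ∀ f, D1 f = D f - D (unif P) * δ f :=
    ⟨D - D (unif P) • δ, fun f => by simp⟩
  rw [← hD1]
  refine ge_of_kill P (D := D1) ?_ ?_ hf
  · intro c
    obtain ⟨c', hc'⟩ := hS c
    refine ⟨c', ?_⟩
    rw [hD1, hδ.2.1, mul_zero, sub_zero, hc']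
  · rw [hD1, hδ.1, mul_one, sub_self]

end loc

variable {k F : Type} [Field k] [Field F] [Algebra k F] [IsAlgClosed k] [CharZero k] [IsFF k F]

/-- A derivation of `F` with extensions to the finite extensions of `F` whose loss is bounded in
terms of the ramification in the direction of the curve, and bounded in the other directions. -/
def GoodS (k : Type) {F : Type} [Field k] [Field F] [Algebra k F] [IsAlgClosed k] [CharZero k]
    [IsFF k F] (D : Derivation ℤ F F) : Prop :=
  ∃ q : Place k F → ℤ, (∀ v, 0 ≤ q v) ∧ {v | q v ≠ 0}.Finite ∧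
    ∀ (L : Type) [Field L] [Algebra k L] [Algebra F L] [IsScalarTower k F L]
      [FiniteDimensional F L] [IsFF k L], ∃ D' : Derivation ℤ L L,
        (∀ x, D' (algebraMap F L x) = algebraMap F L (D x)) ∧
        ∀ (P : Place k L), Ge P (-(((ram F P : ℤ) - 1) + ram F P * q (under F P)))
          (D' (unif P)) ∧
          ∀ δ, Loc P δ → ∀ (g : ℤ) (f : L), Ge P g f →
            Ge P (g - ram F P * q (under F P)) (D' f - D' (unif P) * δ f)

theorem GoodS.zero : GoodS k (0 : Derivation ℤ F F) :=
  ⟨fun _ => 0, fun _ => le_rfl, by simp, fun L _ _ _ _ _ _ => ⟨0, fun x => by simp,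
    fun P => ⟨Or.inl rfl, fun δ _ g f _ => Or.inl (by simp)⟩⟩⟩

theorem GoodS.add {D E : Derivation ℤ F F} (hD : GoodS k D) (hE : GoodS k E) :
    GoodS k (D + E) := by
  obtain ⟨q, hq0, hqf, hq⟩ := hD
  obtain ⟨r, hr0, hrf, hr⟩ := hE
  refine ⟨fun v => q v + r v, fun v => add_nonneg (hq0 v) (hr0 v), ?_, ?_⟩
  · refine (hqf.union hrf).subset fun v hv => ?_
    by_contra hcon
    simp only [Set.mem_union, Set.mem_ofPred_eq, not_or, not_not] at hcon
    apply hv
    dsimp only
    rw [hcon.1, hcon.2, add_zero]
  · intro L _ _ _ _ _ _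
    obtain ⟨D', hD', hDl⟩ := hq L
    obtain ⟨E', hE', hEl⟩ := hr L
    refine ⟨D' + E', fun x => by
      rw [Derivation.add_apply, Derivation.add_apply, hD', hE', map_add], fun P => ⟨?_, ?_⟩⟩
    · have h0 : (0 : ℤ) ≤ ram F P := by positivity
      have h1 := hq0 (under F P)
      have h2 := hr0 (under F P)
      rw [Derivation.add_apply]
      refine Ge.add ((hDl P).1.mono ?_) ((hEl P).1.mono ?_)
      · dsimp only
        nlinarith
      · dsimp only
        nlinarith
    · intro δ hδ g f hf
      have h0 : (0 : ℤ) ≤ ram F P := by positivity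
      have h1 := hq0 (under F P)
      have h2 := hr0 (under F P)
      have e : (D' + E') f - (D' + E') (unif P) * δ f =
          (D' f - D' (unif P) * δ f) + (E' f - E' (unif P) * δ f) := by
        rw [Derivation.add_apply, Derivation.add_apply]
        ring
      rw [e]
      refine Ge.add (((hDl P).2 δ hδ g f hf).mono ?_) (((hEl P).2 δ hδ g f hf).mono ?_)
      · dsimp only
        nlinarith
      · dsimp only
        nlinarith

theorem GoodS.smul {D : Derivation ℤ F F} (hD : GoodS k D) (a : F) : GoodS k (a • D) := by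
  obtain ⟨q, hq0, hqf, hq⟩ := hD
  refine ⟨fun v => q v + max (-v.ord a) 0, fun v => add_nonneg (hq0 v) (le_max_right _ _), ?_, ?_⟩
  · refine (hqf.union (finite_support (k := k) a)).subset fun v hv => ?_
    by_contra hcon
    simp only [Set.mem_union, Set.mem_ofPred_eq, not_or, not_not] at hcon
    apply hv
    dsimp only
    rw [hcon.1, hcon.2]
    simp
  · intro L _ _ _ _ _ _
    obtain ⟨D', hD', hDl⟩ := hq L
    have hval : ∀ f, (algebraMap F L a • D') f = algebraMap F L a * D' f := fun f => by
      rw [Derivation.smul_apply, smul_eq_mul]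
    refine ⟨algebraMap F L a • D', fun x => by
      rw [Derivation.smul_apply, Derivation.smul_apply, hD', smul_eq_mul, smul_eq_mul, map_mul],
      fun P => ?_⟩
    by_cases ha : a = 0
    · constructor
      · left; rw [hval, ha, map_zero, zero_mul]
      · intro δ _ g f _
        left; rw [hval, hval, ha, map_zero, zero_mul, zero_mul, zero_mul, sub_self]
    have h0 : (0 : ℤ) ≤ ram F P := by positivity
    have h1 : Ge P (ram F P * (under F P).ord a) (algebraMap F L a) := by
      right
      rw [ord_under]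
    have h2 := le_max_left (-(under F P).ord a) 0
    constructor
    · rw [hval]
      refine (h1.mul (hDl P).1).mono ?_
      dsimp only
      nlinarith
    · intro δ hδ g f hf
      have e : (algebraMap F L a • D') f - (algebraMap F L a • D') (unif P) * δ f =
          algebraMap F L a * (D' f - D' (unif P) * δ f) := by
        rw [hval, hval]; ring
      rw [e]
      refine (h1.mul ((hDl P).2 δ hδ g f hf)).mono ?_
      dsimp only
      nlinarith

theorem GoodS.sum {ι : Type} (s : Finset ι) (D : ι → Derivation ℤ F F)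
    (h : ∀ i ∈ s, GoodS k (D i)) : GoodS k (∑ i ∈ s, D i) := by
  classical
  induction s using Finset.induction_on with
  | empty => rw [Finset.sum_empty]; exact GoodS.zero
  | insert a s ha ih =>
    rw [Finset.sum_insert ha]
    exact (h a (Finset.mem_insert_self _ _)).add
      (ih fun i hi => h i (Finset.mem_insert_of_mem hi))

theorem GoodS.neg {D : Derivation ℤ F F} (hD : GoodS k D) : GoodS k (-D) := by
  have h := hD.smul (-1)
  rwa [neg_one_smul] at h

/-- A derivation over a subfield that preserves the constants. -/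
theorem GoodS.of_sem {k0 : Type} [Field k0] [Algebra k0 F] {E : Derivation k0 F F}
    (hE : Sem k (E.restrictScalars ℤ)) : GoodS k (E.restrictScalars ℤ) := by
  have hF : CharZero F := charZero_of_injective_algebraMap (algebraMap k F).injective
  obtain ⟨q, hq0, hqf, hq⟩ := exists_loss hE
  refine ⟨q, hq0, hqf, ?_⟩
  intro L _ _ _ _ _ _
  let _ : Algebra k0 L := ((algebraMap F L).comp (algebraMap k0 F)).toAlgebra
  have hst : IsScalarTower k0 F L := IsScalarTower.of_algebraMap_eq fun _ => rfl
  obtain ⟨D', hD'⟩ := exists_ext_der (L := L) E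
  have hS' : Sem k (D'.restrictScalars ℤ) := by
    intro c
    obtain ⟨c', hc'⟩ := hE c
    refine ⟨c', ?_⟩
    rw [IsScalarTower.algebraMap_apply k F L, IsScalarTower.algebraMap_apply k F L, ← hc']
    exact hD' _
  refine ⟨D'.restrictScalars ℤ, hD', fun P => ⟨?_, fun δ hδ g f hf => ?_⟩⟩
  · exact loss_ext (D := E.restrictScalars ℤ) hq0 hq hS' hD' P (Or.inr (by rw [ord_unif]; omega))
  · refine (sem_loc hδ hS' hf).mono ?_
    have h0 : (0 : ℤ) ≤ ram F P := by positivity
    have h1 := hq0 (under F P)
    nlinarith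

end Pool.Agent.TH812.GV2
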