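import Pool.Agent.TH812.GV2.Global
import Pool.Agent.TH812.GV2.Duals
import Pool.Agent.TH812.GV.Vojta

/-!
Vojta's height inequality with constant one for very general pairs over a function field.
-/

set_option autoImplicit false

open MvPolynomial FF Pool.Agent.W603.LV Pool.Agent.W603.PV Pool.Agent.TH145.GH
  Pool.Agent.TH145.MG Pool.Agent.W602.GT Pool.Agent.W603.CZ

namespace Pool.Agent.TH812.GV2

open Pool.Agent.TH812.GV

/-- The total loss in the directions other than that of the curve. -/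
theorem sum_under {k F : Type} [Field k] [Field F] [Algebra k F] [IsAlgClosed k] [CharZero k]
    [IsFF k F] {q : Place k F → ℤ} (hq0 : ∀ v, 0 ≤ q v) (hqf : {v | q v ≠ 0}.Finite) :
    ∃ C : ℕ, ∀ (L : Type) [Field L] [Algebra k L] [Algebra F L]
    [IsScalarTower k F L] [FiniteDimensional F L] [IsFF k L],
      {P : Place k L | (ram F P : ℤ) * q (under F P) ≠ 0}.Finite ∧
      ∑ᶠ P : Place k L, (ram F P : ℤ) * q (under F P) ≤ C * Module.finrank F L := by
  classical
  refine ⟨(∑ v ∈ hqf.toFinset, q v * hgt k (unif v)).toNat, ?_⟩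
  intro L _ _ _ _ _ _
  have h2 : {P : Place k L | (ram F P : ℤ) * q (under F P) ≠ 0}.Finite := by
    refine (finite_over_set (L := L) hqf).subset fun P hP => ?_
    exact right_ne_zero_of_mul hP
  have h3 : ∑ᶠ P : Place k L, (ram F P : ℤ) * q (under F P) ≤
      Module.finrank F L * ∑ v ∈ hqf.toFinset, q v * hgt k (unif v) := by
    rw [finsum_eq_sum_of_support_subset (s := h2.toFinset) _ (fun P hP => by
      rw [Set.Finite.coe_toFinset]; exact hP)]
    rw [← Finset.sum_fiberwise_of_maps_to (t := hqf.toFinset) (g := fun P => under F P)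
      (fun P hP => by
        rw [Set.Finite.mem_toFinset] at hP ⊢
        exact right_ne_zero_of_mul hP), Finset.mul_sum]
    refine Finset.sum_le_sum fun v _ => ?_
    have h9 : ∑ P ∈ h2.toFinset.filter (fun P => under F P = v), (ram F P : ℤ) *
        q (under F P) = (∑ P ∈ h2.toFinset.filter (fun P => under F P = v),
          (ram F P : ℤ)) * q v := by
      rw [Finset.sum_mul]
      refine Finset.sum_congr rfl fun P hP => ?_
      rw [(Finset.mem_filter.1 hP).2]
    rw [h9]
    have h10 := sum_ram_le (L := L) v (ord_unif v) (h2.toFinset.filter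
      (fun P => under F P = v)) fun P hP => (Finset.mem_filter.1 hP).2
    have h11 := mul_le_mul_of_nonneg_right h10 (hq0 v)
    linarith
  refine ⟨h2, ?_⟩
  have h5 : (0 : ℤ) ≤ ∑ v ∈ hqf.toFinset, q v * hgt k (unif v) :=
    Finset.sum_nonneg fun v _ => mul_nonneg (hq0 v) (hgt_nonneg _)
  rw [Int.toNat_of_nonneg h5]
  linarith

theorem vojta_sharp {k0 k F0 F : Type} [Field k0] [Field k] [Field F0] [Field F] [IsAlgClosed k]
    [CharZero k] [Algebra k0 k] [Algebra k F] [Algebra k0 F] [IsScalarTower k0 k F]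
    [Algebra k0 F0] [Algebra F0 F] [IsScalarTower k0 F0 F] [IsFF k F]
    (hfg : ∃ S : Finset F0, IntermediateField.adjoin k0 (S : Set F0) = ⊤) {n m : ℕ}
    (V : Set (MvPolynomial (Fin (n + 1)) F0)) (hV : DimLE F0 V m) {α : Type} [Finite α]
    (H : α → MvPolynomial (Fin (n + 1)) F) (d : α → ℕ) (hH : ∀ a, (H a).IsHomogeneous (d a))
    (I0 : α → Fin (n + 1) →₀ ℕ) (hI0 : ∀ a, (H a).coeff (I0 a) ≠ 0)
    (hgen : AlgebraicIndependent F0 fun p : {p : α × (Fin (n + 1) →₀ ℕ) //
      p.2.degree = d p.1 ∧ p.2 ≠ I0 p.1} => (H p.1.1).coeff p.1.2 / (H p.1.1).coeff (I0 p.1.1)) :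
    ∃ C : ℕ, ∀ (L : Type) [Field L] [Algebra k L] [Algebra F L]
      [IsScalarTower k F L] [FiniteDimensional F L] (x : Fin (n + 1) → L), x ≠ 0 →
      (∀ f ∈ V, aeval x (map (algebraMap F0 F) f) = 0) →
      (∑ᶠ a, (d a : ℤ) + {a | aeval x (H a) = 0}.ncard - 2 * m - 1) * pht k x ≤
        (meetsAny (k := k) (fun a : {a // aeval x (H a) ≠ 0} => H a) (fun a => d a) x).ncard +
          canDeg k L + C * Module.finrank F L := by
  classical
  have := Fintype.ofFinite α
  have hF : CharZero F := charZero_of_injective_algebraMap (algebraMap k F).injective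
  have := finite_Ix d I0
  have := Fintype.ofFinite (Ix d I0)
  -- normalised forms
  obtain ⟨G, hG⟩ : ∃ G : α → MvPolynomial (Fin (n + 1)) F, ∀ a,
    G a = C ((H a).coeff (I0 a))⁻¹ * H a := ⟨_, fun _ => rfl⟩
  have hGc : ∀ a I, (G a).coeff I = (H a).coeff I / (H a).coeff (I0 a) := by
    intro a I
    rw [hG, coeff_C_mul, mul_comm, div_eq_mul_inv]
  have hG1 : ∀ a, (G a).coeff (I0 a) = 1 := fun a => by rw [hGc, div_self (hI0 a)]
  have hGh : ∀ a, (G a).IsHomogeneous (d a) := fun a => by
    rw [hG]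
    have := (isHomogeneous_C (Fin (n + 1)) ((H a).coeff (I0 a))⁻¹).mul (hH a)
    rwa [zero_add] at this
  obtain ⟨Db, hDbg, hDbk, hDb⟩ := exists_duals2 (k0 := k0) (k := k) (F0 := F0) (F := F) hfg
    (fun p : Ix d I0 => (G p.1.1).coeff p.1.2) (by
      have h1 : (fun p : Ix d I0 => (G p.1.1).coeff p.1.2) = fun p : Ix d I0 =>
          (H p.1.1).coeff p.1.2 / (H p.1.1).coeff (I0 p.1.1) := by
        funext p
        rw [hGc]
      rw [h1]
      exact hgen)
  obtain ⟨D, hD⟩ : ∃ D, D = sysD G d I0 Db := ⟨_, rfl⟩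
  have hdual : DualS G d D (sysE I0) := hD ▸ sysD_dual hG1 hDb
  have hgood : ∀ a I, GoodS k (D a I) := by
    intro a I
    rw [hD]
    exact sysD_prop (GoodS k) GoodS.zero (fun D E h h' => h.add h') (fun q => (hDbg q).smul _)
      (fun D h => h.neg) hDbg a I
  have hDk : ∀ a I (r : F0), D a I (algebraMap F0 F r) = 0 := by
    intro a I
    rw [hD]
    refine sysD_prop (fun D : Derivation ℤ F F => ∀ r : F0, D (algebraMap F0 F r) = 0) ?_ ?_ ?_ ?_
      hDbk a I
    · intro r; rfl
    · intro D E h h' r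
      rw [Derivation.add_apply, h, h', add_zero]
    · intro q r
      rw [Derivation.smul_apply, hDbk, smul_zero]
    · intro D h r
      rw [Derivation.neg_apply, h, neg_zero]
  -- the loss
  choose q hq0 hqf hq using hgood
  have hfinI : ∀ a, {I : Fin (n + 1) →₀ ℕ | I.degree = d a}.Finite := fun a =>
    (Finsupp.finite_of_degree_le (d a)).subset fun I hI => le_of_eq hI
  obtain ⟨Q, hQ⟩ : ∃ Q : Place k F → ℤ, ∀ v, Q v = ∑ a, ∑ I ∈ (hfinI a).toFinset, q a I v :=
    ⟨_, fun _ => rfl⟩
  have hQ0 : ∀ v, 0 ≤ Q v := fun v => by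
    rw [hQ]
    exact Finset.sum_nonneg fun a _ => Finset.sum_nonneg fun I _ => hq0 a I v
  have hQf : {v | Q v ≠ 0}.Finite := by
    have h1 : (⋃ a : α, ⋃ I ∈ (hfinI a).toFinset, {v | q a I v ≠ 0}).Finite :=
      Set.finite_iUnion fun a => (hfinI a).toFinset.finite_toSet.biUnion fun I _ => hqf a I
    refine h1.subset fun v hv => ?_
    by_contra hcon
    simp only [Set.mem_iUnion, not_exists, Set.mem_ofPred_eq, not_not] at hcon
    apply hv
    rw [hQ]
    exact Finset.sum_eq_zero fun a _ => Finset.sum_eq_zero fun I hI => hcon a I hI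
  have hQle : ∀ a (I : Fin (n + 1) →₀ ℕ), I.degree = d a → ∀ v, q a I v ≤ Q v := by
    intro a I hI v
    rw [hQ]
    refine le_trans ?_ (Finset.single_le_sum (f := fun a => ∑ I ∈ (hfinI a).toFinset, q a I v)
      (fun a _ => Finset.sum_nonneg fun I _ => hq0 a I v) (Finset.mem_univ a))
    exact Finset.single_le_sum (f := fun I => q a I v) (fun I _ => hq0 a I v)
      (by rw [Set.Finite.mem_toFinset]; exact hI)
  obtain ⟨C1, hC1⟩ := sum_loss (k := k) hQ0 hQf
  obtain ⟨C3, hC3⟩ := sum_under (k := k) hQ0 hQf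
  -- the places where the scaling factors are not units
  obtain ⟨S0, hS0⟩ := exists_supp (k := k) (Finset.univ : Finset α) fun a => (H a).coeff (I0 a)
  obtain ⟨C2, hC2⟩ : ∃ C2 : ℕ, (C2 : ℤ) = ∑ v ∈ S0, hgt k (unif v) :=
    ⟨(∑ v ∈ S0, hgt k (unif v)).toNat, Int.toNat_of_nonneg
      (Finset.sum_nonneg fun _ _ => hgt_nonneg _)⟩
  refine ⟨C2 + C1 + (Fintype.card α + m + 2) * C3, ?_⟩
  intro L _ _ _ _ _ x hx hxV
  have hL : IsFF k L := isFF_of_finite (F := F)
  have hLz : CharZero L := charZero_of_injective_algebraMap (algebraMap k L).injective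
  let _ : Algebra F0 L := ((algebraMap F L).comp (algebraMap F0 F)).toAlgebra
  choose D' hD' hDl using fun a I => hq a I L
  obtain ⟨HL, hHL⟩ : ∃ HL : α → MvPolynomial (Fin (n + 1)) L, ∀ a,
    HL a = map (algebraMap F L) (G a) := ⟨_, fun _ => rfl⟩
  obtain ⟨hqfin, hqsum⟩ := hC1 L
  obtain ⟨hufin, husum⟩ := hC3 L
  obtain ⟨el, hel⟩ : ∃ el : Place k L → ℤ, ∀ P, el P =
    ((ram F P : ℤ) - 1) + ram F P * Q (under F P) := ⟨_, fun _ => rfl⟩
  obtain ⟨ql, hql⟩ : ∃ ql : Place k L → ℤ, ∀ P, ql P = ram F P * Q (under F P) :=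
    ⟨_, fun _ => rfl⟩
  have hql0 : ∀ P, 0 ≤ ql P := fun P => by
    rw [hql]
    exact mul_nonneg (by positivity) (hQ0 _)
  have hsys : SysS k HL d D' (sysE I0) ql el := by
    refine ⟨fun a => by rw [hHL]; exact (hGh a).map _, ?_, hql0, fun P => ?_,
      fun P a I hI => ?_, fun P δ hδ a I hI g f hf => ?_, ?_, ?_⟩
    · intro a b I J hI hJ
      rw [hHL, coeff_map, hD', hdual a b I J hI hJ]
      split_ifs
      · simp
      · simp
      · simp
    · rw [hel]
      have h1 := (ram_spec (F := F) P).1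
      have h2 := hql0 P
      rw [hql] at h2
      omega
    · rw [hel]
      refine (hDl a I P).1.mono ?_
      have h1 := hQle a I hI (under F P)
      have h2 : (0 : ℤ) ≤ ram F P := by positivity
      nlinarith
    · rw [hql]
      refine ((hDl a I P).2 δ hδ g f hf).mono ?_
      have h1 := hQle a I hI (under F P)
      have h2 : (0 : ℤ) ≤ ram F P := by positivity
      nlinarith
    · simp only [hql]
      exact hufin
    · simp only [hel]
      exact hqfin
  have hDk' : ∀ a I (r : F0), D' a I (algebraMap F0 L r) = 0 := by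
    intro a I r
    change D' a I (algebraMap F L (algebraMap F0 F r)) = 0
    rw [hD', hDk, map_zero]
  have htr : Algebra.trdeg F0 (coords F0 x) ≤ m := by
    refine hV L x hx fun f hf => ?_
    have h1 := hxV f hf
    rw [aeval_eq_eval_map, map_map, eval_map] at h1
    rw [aeval_def]
    exact h1
  obtain ⟨W, hWm, hxW, hDW⟩ := exists_W hx htr
  have key := ineq2 hsys hx W hWm hxW fun a I _ => hDW (D' a I) (hDk' a I)
  -- the values of the normalised forms
  have hval : ∀ a, eval x (HL a) = algebraMap F L ((H a).coeff (I0 a))⁻¹ * aeval x (H a) := by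
    intro a
    rw [hHL, hG, map_mul, map_mul, map_C, eval_C, aeval_eq_eval_map]
  have hs0 : ∀ a, algebraMap F L ((H a).coeff (I0 a))⁻¹ ≠ 0 := fun a => by
    rw [Ne, map_eq_zero]; exact inv_ne_zero (hI0 a)
  have hiff : ∀ a, eval x (HL a) = 0 ↔ aeval x (H a) = 0 := fun a => by
    rw [hval, mul_eq_zero]
    exact ⟨fun h => h.resolve_left (hs0 a), Or.inr⟩
  have hE1 : ((Finset.univ.filter fun a => eval x (HL a) = 0).card : ℤ) =
      {a | aeval x (H a) = 0}.ncard := by
    rw [Set.ncard_eq_toFinset_card']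
    congr 2
    ext a
    rw [Finset.mem_filter, Set.mem_toFinset, Set.mem_ofPred_eq, hiff]
    exact ⟨fun h => h.2, fun h => ⟨Finset.mem_univ _, h⟩⟩
  have hBc : ((Finset.univ.filter fun a => eval x (HL a) ≠ 0).card : ℤ) ≤ Fintype.card α := by
    exact_mod_cast Finset.card_le_univ _
  rw [hE1] at key
  -- the counting function
  obtain ⟨cnt, hcnt⟩ : ∃ cnt : Place k L → ℤ, ∀ P, cnt P = if ∃ a,
    eval x (HL a) ≠ 0 ∧ d a * pord P x < P.ord (eval x (HL a)) then 1 else 0 :=
    ⟨_, fun _ => rfl⟩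
  obtain ⟨A, hA⟩ : ∃ A : Set (Place k L), A = meetsAny (k := k)
    (fun a : {a // aeval x (H a) ≠ 0} => H a) (fun a => d a) x := ⟨_, rfl⟩
  have hAfin : A.Finite := by
    have hp := pord_finite (k := k) (Function.ne_iff.1 hx)
    have h1 : (⋃ a : α, {P : Place k L | P.ord (aeval x (H a)) ≠ 0}).Finite :=
      Set.finite_iUnion fun a => finite_support _
    refine (h1.union hp).subset fun P hP => ?_
    by_contra hcon
    simp only [Set.mem_union, Set.mem_iUnion, Set.mem_ofPred_eq, not_or, not_exists, not_not] at hcon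
    obtain ⟨h2, h3⟩ := hcon
    have h3' : pord P x = 0 := by
      by_contra h
      exact h3 h
    rw [hA] at hP
    obtain ⟨a, ha⟩ := hP
    rw [h3', mul_zero, h2 a.1] at ha
    exact lt_irrefl _ ha
  have hBfin : {P : Place k L | under F P ∈ S0}.Finite := finite_over_set (Finset.finite_toSet S0)
  have hcle : ∀ P, cnt P ≤ 1 := by
    intro P
    rw [hcnt]
    split_ifs <;> norm_num
  have hcsupp : ∀ P, cnt P ≠ 0 → P ∈ A ∪ {P : Place k L | under F P ∈ S0} := by
    intro P hP
    rw [hcnt] at hP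
    obtain ⟨a, ha0, ha⟩ : ∃ a, eval x (HL a) ≠ 0 ∧ d a * pord P x < P.ord (eval x (HL a)) := by
      by_contra h
      rw [if_neg h] at hP
      exact hP rfl
    have haE : aeval x (H a) ≠ 0 := fun h => ha0 ((hiff a).2 h)
    by_cases hu : under F P ∈ S0
    · exact Or.inr hu
    · left
      rw [hA]
      refine ⟨⟨a, haE⟩, ?_⟩
      rw [hval, P.ord_mul (hs0 a) haE, ord_under] at ha
      have h1 : (under F P).ord ((H a).coeff (I0 a)) = 0 := by
        by_contra h
        exact hu (hS0 a (Finset.mem_univ _) _ h)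
      rw [(under F P).ord_inv, h1, neg_zero, mul_zero, zero_add] at ha
      exact ha
  have hcfin : {P | cnt P ≠ 0}.Finite := (hAfin.union hBfin).subset hcsupp
  have hcsum : ∑ᶠ P, cnt P ≤ A.ncard + Module.finrank F L * C2 := by
    have h1 := finsum_le_card (hAfin.union hBfin) (M := 1) hcle hcsupp
    have h2 : (((A ∪ {P : Place k L | under F P ∈ S0}).ncard : ℕ) : ℤ) ≤
        A.ncard + Module.finrank F L * C2 := by
      have h3 := Set.ncard_union_le A {P : Place k L | under F P ∈ S0}
      have h4 := card_over_le (L := L) S0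
      rw [← hC2] at h4
      have h5 : (((A ∪ {P : Place k L | under F P ∈ S0}).ncard : ℕ) : ℤ) ≤
        (A.ncard : ℤ) + ({P : Place k L | under F P ∈ S0}.ncard : ℕ) := by exact_mod_cast h3
      linarith
    rw [one_mul] at h1
    exact h1.trans h2
  obtain ⟨B, hBd⟩ : ∃ B : ℤ, B = (Finset.univ.filter fun a => eval x (HL a) ≠ 0).card + m + 2 :=
    ⟨_, rfl⟩
  have hB0 : 0 ≤ B := by rw [hBd]; positivity
  have hBle : B ≤ Fintype.card α + m + 2 := by rw [hBd]; linarith
  simp only [← hcnt, ← hBd] at key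
  have hfe : {P | el P ≠ 0}.Finite := hsys.efin
  have hfq : {P | ql P ≠ 0}.Finite := hsys.qfin
  have hfq' : {P | B * ql P ≠ 0}.Finite := hfq.subset fun P hP => right_ne_zero_of_mul hP
  have hfs : ∑ᶠ P : Place k L, (cnt P + (el P + B * ql P)) =
      ∑ᶠ P, cnt P + (∑ᶠ P, el P + B * ∑ᶠ P, ql P) := by
    rw [finsum_add_distrib hcfin ((hfe.union hfq').subset fun P hP => by
      by_contra hcon
      simp only [Set.mem_union, Set.mem_ofPred_eq, not_or, not_not] at hcon
      apply hP
      dsimp only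
      rw [hcon.1, hcon.2, add_zero]), finsum_add_distrib hfe hfq', ← mul_finsum]
  rw [hfs] at key
  have hes : ∑ᶠ P, el P ≤ canDeg k L + C1 * Module.finrank F L := by
    have h1 : el = fun P => ((ram F P : ℤ) - 1) + ram F P * Q (under F P) := funext hel
    rw [h1]
    exact hqsum
  have hqs : ∑ᶠ P, ql P ≤ C3 * Module.finrank F L := by
    have h1 : ql = fun P => (ram F P : ℤ) * Q (under F P) := funext hql
    rw [h1]
    exact husum
  have h10 : B * ∑ᶠ P, ql P ≤ (Fintype.card α + m + 2) * (C3 * Module.finrank F L) :=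
    (mul_le_mul_of_nonneg_left hqs hB0).trans (mul_le_mul_of_nonneg_right hBle (by positivity))
  rw [← hA, finsum_eq_sum_of_fintype]
  have hcast : ((C2 + C1 + (Fintype.card α + m + 2) * C3 : ℕ) : ℤ) =
      C2 + C1 + (Fintype.card α + m + 2) * C3 := by
    push_cast
    ring
  rw [hcast]
  have hfinal : (A.ncard + Module.finrank F L * C2 : ℤ) + (canDeg k L + C1 * Module.finrank F L +
      (Fintype.card α + m + 2) * (C3 * Module.finrank F L)) =
      A.ncard + canDeg k L + (C2 + C1 + (Fintype.card α + m + 2) * C3) * Module.finrank F L := by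
    ring
  rw [← hfinal]
  exact key.trans (add_le_add hcsum (add_le_add hes h10))

end Pool.Agent.TH812.GV2
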